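import Mathlib
import Pool.Agent.V11108.GenTree

/-!
# MP_f8f5a4: every generalized Bratteli diagram has an order generating a Borel Vershik map
-/

set_option autoImplicit false
open Filter Topology Set

namespace Pool.Agent.Results.MP_f8f5a4_an.BorelVershik

/-! ## The notions of the problem -/

/-- generalized Bratteli diagrams -/
structure GBD where
  V : ℕ → Type
  E : ℕ → Type
  s : ∀ i, E i → V i
  r : ∀ i, E i → V (i + 1)
  countableV : ∀ i, Countable (V i)
  infiniteV : ∀ i, Infinite (V i)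
  countableE : ∀ i, Countable (E i)
  s_surj : ∀ i v, ∃ e, s i e = v
  r_surj : ∀ i v, ∃ e, r i e = v
  r_fin : ∀ i v, {e | r i e = v}.Finite

instance (B : GBD) (i : ℕ) : TopologicalSpace (B.E i) := ⊥
instance (B : GBD) (i : ℕ) : DiscreteTopology (B.E i) := ⟨rfl⟩
instance (B : GBD) (i : ℕ) : Countable (B.E i) := B.countableE i
instance (B : GBD) (i : ℕ) : Countable (B.V i) := B.countableV i

/-- the path space, with the topology generated by the cylinders -/
abbrev Path (B : GBD) : Type :=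
  {x : ∀ i, B.E i // ∀ i, B.r i (x i) = B.s (i + 1) (x (i + 1))}

/-- the Borel structure of the path space -/
instance (B : GBD) : MeasurableSpace (Path B) := borel _
instance (B : GBD) : BorelSpace (Path B) := ⟨rfl⟩

/-- an order: a linear order on every `r⁻¹(v)`, edges with different ranges being incomparable -/
structure EdgeOrder (B : GBD) where
  le : ∀ i, B.E i → B.E i → Prop
  same : ∀ i e e', le i e e' → B.r i e = B.r i e'
  refl : ∀ i e, le i e e
  trans : ∀ i e e' e'', le i e e' → le i e' e'' → le i e e''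
  antisymm : ∀ i e e', le i e e' → le i e' e → e = e'
  total : ∀ i e e', B.r i e = B.r i e' → le i e e' ∨ le i e' e

variable {B : GBD}

/-- maximal edges -/
def IsMaxEdge (o : EdgeOrder B) (i : ℕ) (e : B.E i) : Prop := ∀ e', o.le i e e' → e' = e

/-- minimal edges -/
def IsMinEdge (o : EdgeOrder B) (i : ℕ) (e : B.E i) : Prop := ∀ e', o.le i e' e → e' = e

/-- `e'` is the successor of `e` -/
def IsSucc (o : EdgeOrder B) (i : ℕ) (e e' : B.E i) : Prop :=
  o.le i e e' ∧ e ≠ e' ∧ ∀ e'', o.le i e e'' → o.le i e'' e' → e'' = e ∨ e'' = e'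

/-- infinite maximal paths -/
def Xmax (o : EdgeOrder B) : Set (Path B) := {x | ∀ i, IsMaxEdge o i (x.1 i)}

/-- infinite minimal paths -/
def Xmin (o : EdgeOrder B) : Set (Path B) := {x | ∀ i, IsMinEdge o i (x.1 i)}

/-- the Vershik map sends `x` to `y` -/
def IsVershik (o : EdgeOrder B) (x y : Path B) : Prop :=
  ∃ n, (∀ i < n, IsMaxEdge o i (x.1 i)) ∧ ¬ IsMaxEdge o n (x.1 n) ∧
    IsSucc o n (x.1 n) (y.1 n) ∧ (∀ i, n < i → y.1 i = x.1 i) ∧ ∀ i < n, IsMinEdge o i (y.1 i)

/-- the order generates a Borel Vershik map -/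
def GeneratesBorel (o : EdgeOrder B) : Prop :=
  ∃ F : Path B → Path B, Measurable F ∧ Function.Bijective F ∧ ∀ x ∉ Xmax o, IsVershik o x (F x)

/-! ## The orders -/

/-- an enumeration of the edges -/
noncomputable def code (i : ℕ) : B.E i → ℕ := (Countable.exists_injective_nat (B.E i)).choose

lemma code_inj (i : ℕ) : Function.Injective (code (B := B) i) :=
  (Countable.exists_injective_nat (B.E i)).choose_spec

/-- signed enumeration -/
noncomputable def kap (b : Bool) (i : ℕ) (e : B.E i) : ℤ := if b then -(code i e : ℤ) else code i e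

lemma kap_not (b : Bool) (i : ℕ) (e : B.E i) : kap (!b) i e = - kap b i e := by
  cases b <;> simp [kap]

lemma kap_inj (b : Bool) (i : ℕ) {e e' : B.E i} (h : kap b i e = kap b i e') : e = e' := by
  apply code_inj i
  cases b <;> simp [kap] at h <;> exact h

/-- the order attached to a choice of signs -/
noncomputable def ordOf (ω : (Σ i, B.V i) → Bool) : EdgeOrder B where
  le i e e' := B.r i e = B.r i e' ∧ kap (ω ⟨i + 1, B.r i e⟩) i e ≤ kap (ω ⟨i + 1, B.r i e⟩) i e'
  same i e e' h := h.1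
  refl i e := ⟨rfl, le_rfl⟩
  trans i e e' e'' h h' := ⟨h.1.trans h'.1, h.2.trans (by rw [h.1]; exact h'.2)⟩
  antisymm i e e' h h' := kap_inj _ i (le_antisymm h.2 (by rw [h.1]; exact h'.2))
  total i e e' h := by
    rcases le_total (kap (ω ⟨i + 1, B.r i e⟩) i e) (kap (ω ⟨i + 1, B.r i e⟩) i e') with h' | h'
    · exact Or.inl ⟨h, h'⟩
    · exact Or.inr ⟨h.symm, by rw [← h]; exact h'⟩

/-- the complementary signs -/
def neg (ω : (Σ i, B.V i) → Bool) : (Σ i, B.V i) → Bool := fun v => !(ω v)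

lemma neg_neg (ω : (Σ i, B.V i) → Bool) : neg (neg ω) = ω := by
  funext v; simp [neg]

lemma le_neg (ω : (Σ i, B.V i) → Bool) (i : ℕ) (e e' : B.E i) :
    (ordOf (neg ω)).le i e e' ↔ (ordOf ω).le i e' e := by
  constructor
  · rintro ⟨h1, h2⟩
    refine ⟨h1.symm, ?_⟩
    simp only [neg, kap_not] at h2
    rw [← h1]
    linarith
  · rintro ⟨h1, h2⟩
    refine ⟨h1.symm, ?_⟩
    simp only [neg, kap_not]
    rw [h1] at h2
    linarith

lemma isMax_neg (ω : (Σ i, B.V i) → Bool) (i : ℕ) (e : B.E i) :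
    IsMaxEdge (ordOf (neg ω)) i e ↔ IsMinEdge (ordOf ω) i e := by
  constructor <;> intro h e' he'
  · exact h e' ((le_neg ω i e e').2 he')
  · exact h e' ((le_neg ω i e e').1 he')

lemma isMin_neg (ω : (Σ i, B.V i) → Bool) (i : ℕ) (e : B.E i) :
    IsMinEdge (ordOf (neg ω)) i e ↔ IsMaxEdge (ordOf ω) i e := by
  rw [← isMax_neg, neg_neg]

lemma isSucc_neg (ω : (Σ i, B.V i) → Bool) (i : ℕ) (e e' : B.E i) :
    IsSucc (ordOf (neg ω)) i e e' ↔ IsSucc (ordOf ω) i e' e := by
  simp only [IsSucc, le_neg]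
  constructor
  · rintro ⟨h1, h2, h3⟩
    exact ⟨h1, h2.symm, fun e'' h h' => (h3 e'' h' h).symm⟩
  · rintro ⟨h1, h2, h3⟩
    exact ⟨h1, h2.symm, fun e'' h h' => (h3 e'' h' h).symm⟩

lemma exists_m (b : Bool) (i : ℕ) (v : B.V (i + 1)) :
    ∃ e : B.E i, B.r i e = v ∧ ∀ e', B.r i e' = v → kap b i e' ≤ kap b i e := by
  obtain ⟨e, he, hmax⟩ := Set.exists_max_image {e | B.r i e = v} (kap b i) (B.r_fin i v)
    (B.r_surj i v)
  exact ⟨e, he, hmax⟩

/-- the maximal edge into `v` for the sign `b` -/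
noncomputable def mx (b : Bool) (i : ℕ) (v : B.V (i + 1)) : B.E i := (exists_m b i v).choose

lemma r_mx (b : Bool) (i : ℕ) (v : B.V (i + 1)) : B.r i (mx b i v) = v :=
  (exists_m b i v).choose_spec.1

lemma mx_max (b : Bool) (i : ℕ) (v : B.V (i + 1)) (e' : B.E i) (h : B.r i e' = v) :
    kap b i e' ≤ kap b i (mx b i v) := (exists_m b i v).choose_spec.2 e' h

lemma isMax_iff (ω : (Σ i, B.V i) → Bool) (i : ℕ) (e : B.E i) :
    IsMaxEdge (ordOf ω) i e ↔ e = mx (ω ⟨i + 1, B.r i e⟩) i (B.r i e) := by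
  constructor
  · intro h
    exact (h _ ⟨(r_mx _ i _).symm, mx_max _ i _ e rfl⟩).symm
  · intro h e' he'
    refine kap_inj (ω ⟨i + 1, B.r i e⟩) i (le_antisymm ?_ he'.2)
    have := mx_max (ω ⟨i + 1, B.r i e⟩) i (B.r i e) e' he'.1.symm
    rwa [← h] at this

lemma isMin_iff (ω : (Σ i, B.V i) → Bool) (i : ℕ) (e : B.E i) :
    IsMinEdge (ordOf ω) i e ↔ e = mx (neg ω ⟨i + 1, B.r i e⟩) i (B.r i e) := by
  rw [← isMax_neg, isMax_iff]

lemma succ_exists (ω : (Σ i, B.V i) → Bool) (i : ℕ) (e : B.E i)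
    (h : ¬ IsMaxEdge (ordOf ω) i e) : ∃ e', IsSucc (ordOf ω) i e e' := by
  unfold IsMaxEdge at h
  push Not at h
  obtain ⟨e₁, he₁, hne₁⟩ := h
  set b := ω ⟨i + 1, B.r i e⟩ with hb
  obtain ⟨e', ⟨h1, h2⟩, hmin⟩ := Set.exists_min_image
    ({e' | B.r i e' = B.r i e} ∩ {e' | kap b i e < kap b i e'}) (kap b i)
    ((B.r_fin i (B.r i e)).subset Set.inter_subset_left)
    ⟨e₁, he₁.1.symm, lt_of_le_of_ne he₁.2 fun h => hne₁ (kap_inj b i h).symm⟩
  have h1' : B.r i e' = B.r i e := h1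
  have h2' : kap b i e < kap b i e' := h2
  refine ⟨e', ⟨h1'.symm, h2'.le⟩, fun h => ?_, fun e'' g1 g2 => ?_⟩
  · rw [h] at h2'; exact lt_irrefl _ h2'
  · rcases g1.2.lt_or_eq with g | g
    · right
      have h3 := hmin e'' ⟨g1.1.symm, g⟩
      have h4 := g2.2
      have h5 : ω ⟨i + 1, B.r i e''⟩ = b := by rw [hb, g1.1]
      rw [h5] at h4
      exact kap_inj b i (le_antisymm h4 h3)
    · left
      exact (kap_inj b i g).symm

lemma succ_unique (o : EdgeOrder B) (i : ℕ) (e e' e'' : B.E i) (h' : IsSucc o i e e')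
    (h'' : IsSucc o i e e'') : e' = e'' := by
  have hr : B.r i e' = B.r i e'' := (o.same i e e' h'.1).symm.trans (o.same i e e'' h''.1)
  rcases o.total i e' e'' hr with h | h
  · rcases h''.2.2 e' h'.1 h with g | g
    · exact absurd g.symm h'.2.1
    · exact g
  · rcases h'.2.2 e'' h''.1 h with g | g
    · exact absurd g.symm h''.2.1
    · exact g.symm

/-! ## The Vershik map -/

/-- continue downwards by minimal edges -/
noncomputable def bk (ω : (Σ i, B.V i) → Bool) : ℕ → (∀ i, B.E i) → (∀ i, B.E i)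
  | 0, y => y
  | (k + 1), y => bk ω k (Function.update y k
      (mx (neg ω ⟨k + 1, B.s (k + 1) (y (k + 1))⟩) k (B.s (k + 1) (y (k + 1)))))

lemma bk_ge (ω : (Σ i, B.V i) → Bool) (k : ℕ) : ∀ (y : ∀ i, B.E i) (i : ℕ), k ≤ i →
    bk ω k y i = y i := by
  induction k with
  | zero => intro y i _; rfl
  | succ k ih =>
    intro y i hi
    simp only [bk]
    rw [ih _ i (by omega), Function.update_of_ne (by omega)]

lemma bk_lt (ω : (Σ i, B.V i) → Bool) (k : ℕ) : ∀ (y : ∀ i, B.E i) (i : ℕ), i < k →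
    bk ω k y i = mx (neg ω ⟨i + 1, B.s (i + 1) (bk ω k y (i + 1))⟩) i
      (B.s (i + 1) (bk ω k y (i + 1))) := by
  induction k with
  | zero => intro y i hi; omega
  | succ k ih =>
    intro y i hi
    simp only [bk]
    rcases Nat.lt_succ_iff_lt_or_eq.1 hi with h | h
    · exact ih _ i h
    · subst h
      rw [bk_ge ω i _ i le_rfl, bk_ge ω i _ (i + 1) (by omega), Function.update_self,
        Function.update_of_ne (by omega)]

lemma vershik_exists (ω : (Σ i, B.V i) → Bool) (x : Path B) (hx : x ∉ Xmax (ordOf ω)) :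
    ∃ y, IsVershik (ordOf ω) x y := by
  classical
  have hex : ∃ n, ¬ IsMaxEdge (ordOf ω) n (x.1 n) := by
    by_contra hcon
    push Not at hcon
    exact hx hcon
  set n := Nat.find hex with hn
  have hnmax : ¬ IsMaxEdge (ordOf ω) n (x.1 n) := Nat.find_spec hex
  have hlt : ∀ i < n, IsMaxEdge (ordOf ω) i (x.1 i) := fun i hi => not_not.1 (Nat.find_min hex hi)
  obtain ⟨e', he'⟩ := succ_exists ω n (x.1 n) hnmax
  set z := Function.update x.1 n e' with hz
  set y := bk ω n z with hy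
  have hyn : y n = e' := by
    rw [hy, bk_ge ω n z n le_rfl, hz, Function.update_self]
  have hygt : ∀ i, n < i → y i = x.1 i := by
    intro i hi
    rw [hy, bk_ge ω n z i hi.le, hz, Function.update_of_ne (by omega)]
  have hylt : ∀ i, i < n → y i = mx (neg ω ⟨i + 1, B.s (i + 1) (y (i + 1))⟩) i
      (B.s (i + 1) (y (i + 1))) := fun i hi => bk_lt ω n z i hi
  have hpath : ∀ i, B.r i (y i) = B.s (i + 1) (y (i + 1)) := by
    intro i
    rcases lt_trichotomy i n with h | h | h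
    · rw [hylt i h, r_mx]
    · subst h
      rw [hyn, hygt (n + 1) (by omega), ← x.2 n]
      exact ((ordOf ω).same n _ _ he'.1).symm
    · rw [hygt i h, hygt (i + 1) (by omega)]
      exact x.2 i
  refine ⟨⟨y, hpath⟩, n, hlt, hnmax, ?_, hygt, ?_⟩
  · show IsSucc (ordOf ω) n (x.1 n) (y n)
    rw [hyn]; exact he'
  · intro i hi
    rw [isMin_iff]
    show y i = mx (neg ω ⟨i + 1, B.r i (y i)⟩) i (B.r i (y i))
    rw [hpath i]
    exact hylt i hi

lemma vershik_unique (ω : (Σ i, B.V i) → Bool) (x y y' : Path B) (h : IsVershik (ordOf ω) x y)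
    (h' : IsVershik (ordOf ω) x y') : y = y' := by
  obtain ⟨n, h1, h2, h3, h4, h5⟩ := h
  obtain ⟨n', h1', h2', h3', h4', h5'⟩ := h'
  have hnn : n = n' := by
    rcases lt_trichotomy n n' with g | g | g
    · exact absurd (h1' n g) h2
    · exact g
    · exact absurd (h1 n' g) h2'
  subst hnn
  have hge : ∀ i, n ≤ i → y.1 i = y'.1 i := by
    intro i hi
    rcases hi.lt_or_eq with g | g
    · rw [h4 i g, h4' i g]
    · subst g
      exact succ_unique _ n _ _ _ h3 h3'
  have hall : ∀ k, ∀ i, n ≤ i + k → y.1 i = y'.1 i := by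
    intro k
    induction k with
    | zero => intro i hi; exact hge i hi
    | succ k ih =>
      intro i hi
      rcases le_or_gt n i with g | g
      · exact hge i g
      · have e1 := (isMin_iff ω i (y.1 i)).1 (h5 i g)
        have e2 := (isMin_iff ω i (y'.1 i)).1 (h5' i g)
        have e3 : B.r i (y.1 i) = B.r i (y'.1 i) := by
          rw [y.2 i, y'.2 i, ih (i + 1) (by omega)]
        rw [e1, e2, e3]
  exact Subtype.ext (funext fun i => hall n i (by omega))

lemma vershik_neg (ω : (Σ i, B.V i) → Bool) (x y : Path B) (h : IsVershik (ordOf ω) x y) :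
    IsVershik (ordOf (neg ω)) y x := by
  obtain ⟨n, h1, h2, h3, h4, h5⟩ := h
  refine ⟨n, fun i hi => (isMax_neg ω i _).2 (h5 i hi), fun hmax => ?_, (isSucc_neg ω n _ _).2 h3,
    fun i hi => (h4 i hi).symm, fun i hi => (isMin_neg ω i _).2 (h1 i hi)⟩
  have := (isMax_neg ω n _).1 hmax
  exact h3.2.1 (this _ h3.1)

lemma not_mem_max (o : EdgeOrder B) (x y : Path B) (h : IsVershik o x y) : x ∉ Xmax o := by
  obtain ⟨n, _, h2, _⟩ := h
  exact fun hx => h2 (hx n)

lemma Xmax_neg (ω : (Σ i, B.V i) → Bool) : Xmax (ordOf (neg ω)) = Xmin (ordOf ω) := by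
  ext x
  exact forall_congr' fun i => isMax_neg ω i _

lemma isClosed_Xmax (o : EdgeOrder B) : IsClosed (Xmax o) := by
  have : Xmax o = ⋂ i, (fun x : Path B => x.1 i) ⁻¹' {e | IsMaxEdge o i e} := by
    ext x; simp only [Set.mem_iInter]; rfl
  rw [this]
  exact isClosed_iInter fun i => (isClosed_discrete _).preimage
    ((continuous_apply i).comp continuous_subtype_val)

/-- the Vershik map is locally determined -/
lemma vershik_local (ω : (Σ i, B.V i) → Bool) (x y : Path B) (h : IsVershik (ordOf ω) x y)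
    (N : ℕ) : ∃ M, ∀ x' y' : Path B, (∀ i ≤ M, x'.1 i = x.1 i) → IsVershik (ordOf ω) x' y' →
      y'.1 N = y.1 N := by
  obtain ⟨n, h1, h2, h3, h4, h5⟩ := h
  refine ⟨max n N, fun x' y' hx' hy' => ?_⟩
  have hy'' : ∀ i, B.r i ((if i ≤ n then y.1 i else x'.1 i)) =
      B.s (i + 1) (if i + 1 ≤ n then y.1 (i + 1) else x'.1 (i + 1)) := by
    intro i
    rcases lt_trichotomy i n with g | g | g
    · rw [if_pos g.le, if_pos (by omega)]; exact y.2 i
    · subst g
      rw [if_pos le_rfl, if_neg (by omega), ← x'.2 i, hx' i (le_max_left _ _)]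
      exact ((ordOf ω).same i _ _ h3.1).symm
    · rw [if_neg (by omega), if_neg (by omega)]; exact x'.2 i
  have hv : IsVershik (ordOf ω) x' ⟨fun i => if i ≤ n then y.1 i else x'.1 i, hy''⟩ := by
    refine ⟨n, fun i hi => ?_, ?_, ?_, fun i hi => ?_, fun i hi => ?_⟩
    · rw [hx' i (by omega)]; exact h1 i hi
    · rw [hx' n (by omega)]; exact h2
    · simp only [le_refl, if_true]
      rw [hx' n (by omega)]; exact h3
    · simp only [if_neg (show ¬ i ≤ n by omega)]
    · simp only [if_pos hi.le]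
      exact h5 i hi
  rw [vershik_unique ω x' y' _ hy' hv]
  simp only
  by_cases g : N ≤ n
  · rw [if_pos g]
  · rw [if_neg g, hx' N (le_max_right _ _), h4 N (by omega)]

/-! ## Rays and maximal paths -/

/-- levels -/
def lv (v : Σ i, B.V i) : ℕ := v.1

/-- the source of the maximal edge -/
noncomputable def q (b : Bool) : (Σ i, B.V i) → (Σ i, B.V i)
  | ⟨0, v⟩ => ⟨0, v⟩
  | ⟨n + 1, v⟩ => ⟨n, B.s n (mx b n v)⟩

lemma hq (b : Bool) (v : Σ i, B.V i) (h : 0 < lv v) : lv (q b v) + 1 = lv v := by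
  obtain ⟨n, v⟩ := v
  cases n with
  | zero => exact absurd h (lt_irrefl 0)
  | succ n => rfl

open Pool.Agent.V11108.GenTree in
lemma maxEquiv (ω : (Σ i, B.V i) → Bool) :
    Nonempty (Xmax (ordOf ω) ≃ {σ // IsRay (lv (B := B)) q ω σ}) := by
  let σ : Path B → ℕ → (Σ i, B.V i) := fun x n =>
    Nat.rec ⟨0, B.s 0 (x.1 0)⟩ (fun n _ => ⟨n + 1, B.r n (x.1 n)⟩) n
  have hσ0 : ∀ x, σ x 0 = ⟨0, B.s 0 (x.1 0)⟩ := fun _ => rfl
  have hσs : ∀ x n, σ x (n + 1) = ⟨n + 1, B.r n (x.1 n)⟩ := fun _ _ => rfl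
  have hσ' : ∀ x n, σ x n = ⟨n, B.s n (x.1 n)⟩ := by
    intro x n
    cases n with
    | zero => rfl
    | succ n => rw [hσs, x.2 n]
  have hray : ∀ x : Xmax (ordOf ω), IsRay (lv (B := B)) q ω (σ x.1) := by
    intro x
    refine ⟨fun n => by rw [hσ']; rfl, fun n => ?_⟩
    rw [hσs, hσ' x.1 n]
    show (⟨n, B.s n (mx _ n (B.r n (x.1.1 n)))⟩ : Σ i, B.V i) = _
    rw [← (isMax_iff ω n (x.1.1 n)).1 (x.2 n)]
  let f : Xmax (ordOf ω) → {σ // IsRay (lv (B := B)) q ω σ} := fun x => ⟨σ x.1, hray x⟩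
  refine ⟨Equiv.ofBijective f ⟨?_, ?_⟩⟩
  · intro x y hxy
    have h1 : σ x.1 = σ y.1 := congrArg Subtype.val hxy
    refine Subtype.ext (Subtype.ext (funext fun n => ?_))
    have h2 := congrFun h1 (n + 1)
    rw [hσs, hσs] at h2
    have h3 : B.r n (x.1.1 n) = B.r n (y.1.1 n) := eq_of_heq (Sigma.mk.inj h2).2
    rw [(isMax_iff ω n (x.1.1 n)).1 (x.2 n), (isMax_iff ω n (y.1.1 n)).1 (y.2 n), h3]
  · rintro ⟨τ, hτ⟩
    have hv : ∀ n, ∃ v : B.V n, τ n = ⟨n, v⟩ := by
      intro n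
      have h1 : lv (τ n) = n := hτ.1 n
      rcases h : τ n with ⟨m, v⟩
      rw [h] at h1
      have h2 : m = n := h1
      subst h2
      exact ⟨v, rfl⟩
    choose v hv using hv
    have hs : ∀ n, B.s n (mx (ω ⟨n + 1, v (n + 1)⟩) n (v (n + 1))) = v n := by
      intro n
      have h1 := hτ.2 n
      rw [hv n, hv (n + 1)] at h1
      have h2 : (⟨n, B.s n (mx (ω ⟨n + 1, v (n + 1)⟩) n (v (n + 1)))⟩ : Σ i, B.V i) = ⟨n, v n⟩ := h1
      exact eq_of_heq (Sigma.mk.inj h2).2
    let x : Path B := ⟨fun n => mx (ω ⟨n + 1, v (n + 1)⟩) n (v (n + 1)), fun n => by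
      rw [r_mx, hs (n + 1)]⟩
    have hx : x ∈ Xmax (ordOf ω) := by
      intro n
      rw [isMax_iff]
      show mx (ω ⟨n + 1, v (n + 1)⟩) n (v (n + 1)) =
        mx (ω ⟨n + 1, B.r n (mx (ω ⟨n + 1, v (n + 1)⟩) n (v (n + 1)))⟩) n
          (B.r n (mx (ω ⟨n + 1, v (n + 1)⟩) n (v (n + 1))))
      rw [r_mx]
    refine ⟨⟨x, hx⟩, Subtype.ext (funext fun n => ?_)⟩
    show σ x n = τ n
    rw [hσ', hv n]
    show (⟨n, B.s n (mx (ω ⟨n + 1, v (n + 1)⟩) n (v (n + 1)))⟩ : Σ i, B.V i) = ⟨n, v n⟩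
    rw [hs n]

/-! ## The theorem -/

lemma isClosed_path (B : GBD) : IsClosed {x : ∀ i, B.E i | ∀ i, B.r i (x i) = B.s (i + 1) (x (i + 1))} := by
  have : {x : ∀ i, B.E i | ∀ i, B.r i (x i) = B.s (i + 1) (x (i + 1))} =
      ⋂ i, (fun x : ∀ i, B.E i => (x i, x (i + 1))) ⁻¹'
        {p : B.E i × B.E (i + 1) | B.r i p.1 = B.s (i + 1) p.2} := by
    ext x; simp only [Set.mem_iInter]; rfl
  rw [this]
  exact isClosed_iInter fun i => (isClosed_discrete _).preimage
    ((continuous_apply i).prodMk (continuous_apply (i + 1)))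

instance (B : GBD) : PolishSpace (Path B) := (isClosed_path B).polishSpace

/-- **Main theorem.** Every generalized Bratteli diagram admits an order that generates a Borel
Vershik map. -/
theorem result (B : GBD) : ∃ o : EdgeOrder B, GeneratesBorel o := by
  obtain ⟨ω, hω⟩ := Pool.Agent.V11108.GenTree.exists_balanced (lv := lv (B := B)) (q := q) hq
  obtain ⟨e₁⟩ := maxEquiv ω
  obtain ⟨e₂⟩ := maxEquiv (neg ω)
  have hcl1 : MeasurableSet (Xmax (ordOf ω)) := (isClosed_Xmax _).measurableSet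
  have hcl2 : MeasurableSet (Xmax (ordOf (neg ω))) := (isClosed_Xmax _).measurableSet
  have : StandardBorelSpace (Xmax (ordOf ω)) := hcl1.standardBorel
  have : StandardBorelSpace (Xmax (ordOf (neg ω))) := hcl2.standardBorel
  have hg : Nonempty (Xmax (ordOf ω) ≃ᵐ Xmax (ordOf (neg ω))) := by
    rcases hω with ⟨h1, h2⟩ | ⟨_, _, ⟨e⟩⟩
    · refine ⟨PolishSpace.measurableEquivOfNotCountable (fun h => h1 ?_) (fun h => h2 ?_)⟩
      · exact e₁.countable_iff.1 h
      · exact e₂.countable_iff.1 h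
    · exact ⟨PolishSpace.Equiv.measurableEquiv ((e₁.trans e).trans e₂.symm)⟩
  obtain ⟨g⟩ := hg
  classical
  have hV : ∀ x : Path B, ∃ y, x ∉ Xmax (ordOf ω) → IsVershik (ordOf ω) x y := by
    intro x
    by_cases h : x ∈ Xmax (ordOf ω)
    · exact ⟨x, fun h' => absurd h h'⟩
    · obtain ⟨y, hy⟩ := vershik_exists ω x h
      exact ⟨y, fun _ => hy⟩
  choose V hV using hV
  let F : Path B → Path B := fun x => if h : x ∈ Xmax (ordOf ω) then (g ⟨x, h⟩).1 else V x
  have hF1 : ∀ x (h : x ∈ Xmax (ordOf ω)), F x = (g ⟨x, h⟩).1 := fun x h => dif_pos h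
  have hF2 : ∀ x, x ∉ Xmax (ordOf ω) → F x = V x := fun x h => dif_neg h
  have hVmin : ∀ x, x ∉ Xmax (ordOf ω) → V x ∉ Xmax (ordOf (neg ω)) := fun x h =>
    not_mem_max _ _ _ (vershik_neg ω x (V x) (hV x h))
  refine ⟨ordOf ω, F, ?_, ⟨?_, ?_⟩, fun x hx => by rw [hF2 x hx]; exact hV x hx⟩
  · refine measurable_of_restrict_of_restrict_compl hcl1 ?_ ?_
    · have : (Xmax (ordOf ω)).domRestrict F = fun x => (g x).1 := by
        funext x
        exact hF1 x.1 x.2
      rw [this]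
      exact measurable_subtype_coe.comp g.measurable
    · have : (Xmax (ordOf ω))ᶜ.domRestrict F = fun x => V x.1 := by
        funext x
        exact hF2 x.1 x.2
      rw [this]
      have hc : Continuous (fun x : ((Xmax (ordOf ω))ᶜ : Set (Path B)) => V x.1) := by
        rw [continuous_iff_continuousAt]
        intro x
        refine tendsto_subtype_rng.2 (tendsto_pi_nhds.2 fun N => ?_)
        obtain ⟨M, hM⟩ := vershik_local ω x.1 (V x.1) (hV x.1 x.2) N
        refine tendsto_const_nhds.congr' ?_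
        have hop : IsOpen {x' : ((Xmax (ordOf ω))ᶜ : Set (Path B)) | ∀ i ∈ Finset.range (M + 1),
            x'.1.1 i = x.1.1 i} := by
          have : {x' : ((Xmax (ordOf ω))ᶜ : Set (Path B)) | ∀ i ∈ Finset.range (M + 1),
            x'.1.1 i = x.1.1 i} = ⋂ i ∈ Finset.range (M + 1),
              (fun x' : ((Xmax (ordOf ω))ᶜ : Set (Path B)) => x'.1.1 i) ⁻¹' {x.1.1 i} := by
            ext x'; simp only [Set.mem_iInter]; rfl
          rw [this]
          exact isOpen_biInter_finset fun i _ => (isOpen_discrete _).preimage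
            (((continuous_apply i).comp continuous_subtype_val).comp continuous_subtype_val)
        filter_upwards [hop.mem_nhds (fun i _ => rfl)] with x' hx'
        exact (hM x'.1 (V x'.1) (fun i hi => hx' i (Finset.mem_range.2 (by omega)))
          (hV x'.1 x'.2)).symm
      exact hc.measurable
  · intro x x' hxx
    by_cases h : x ∈ Xmax (ordOf ω) <;> by_cases h' : x' ∈ Xmax (ordOf ω)
    · rw [hF1 x h, hF1 x' h'] at hxx
      have := g.injective (Subtype.ext hxx)
      exact congrArg Subtype.val this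
    · rw [hF1 x h, hF2 x' h'] at hxx
      exact absurd (hxx ▸ (g ⟨x, h⟩).2) (hVmin x' h')
    · rw [hF2 x h, hF1 x' h'] at hxx
      exact absurd (hxx ▸ (g ⟨x', h'⟩).2) (hVmin x h)
    · rw [hF2 x h, hF2 x' h'] at hxx
      have h1 := vershik_neg ω x (V x) (hV x h)
      have h2 := vershik_neg ω x' (V x') (hV x' h')
      rw [← hxx] at h2
      exact vershik_unique (neg ω) _ _ _ h1 h2
  · intro y
    by_cases h : y ∈ Xmax (ordOf (neg ω))
    · refine ⟨(g.symm ⟨y, h⟩).1, ?_⟩
      rw [hF1 _ (g.symm ⟨y, h⟩).2]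
      simp
    · obtain ⟨x, hx⟩ := vershik_exists (neg ω) y h
      have h1 := vershik_neg (neg ω) y x hx
      rw [neg_neg] at h1
      have h2 := not_mem_max _ _ _ h1
      refine ⟨x, ?_⟩
      rw [hF2 x h2]
      exact vershik_unique ω x _ _ (hV x h2) h1

end Pool.Agent.Results.MP_f8f5a4_an.BorelVershik
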